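import Pool.Agent.L7h64.FB.Stm

/-! [FB-FR] of project FB (helper64): `T` and its derivative in the new variables. -/

set_option autoImplicit false
set_option linter.unusedVariables false

open MeasureTheory Metric Set Filter Topology InnerProductGeometry

namespace Pool.Agent.L7h21.FB

open Pool.Agent.H241R3.FV (E Sph sig)
open Pool.Agent.L7h64.FB

theorem sig_fin3 : IsFiniteMeasure (sig 3) :=
  inferInstanceAs (IsFiniteMeasure (volume : Measure (E 3)).toSphere)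

attribute [local instance] sig_fin3

theorem lip_cont {F : Sph 3 → ℝ} (hF : Lip1 F) : Continuous F := by
  rw [continuous_iff_continuousAt]
  intro θ
  have h0 : (θ : E 3) ≠ 0 := by
    intro h
    have h1 : ‖(θ : E 3)‖ = 1 := by simpa using θ.2
    rw [h, norm_zero] at h1
    exact zero_ne_one h1
  have h1 : Tendsto (fun θ' : Sph 3 => angle (θ' : E 3) (θ : E 3)) (𝓝 θ) (𝓝 0) := by
    have h2 : ContinuousAt (fun θ' : Sph 3 => angle (θ' : E 3) (θ : E 3)) θ := by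
      have h3 := InnerProductGeometry.continuousAt_angle (x := ((θ : E 3), (θ : E 3))) h0 h0
      have h4 : ContinuousAt (fun θ' : Sph 3 => ((θ' : E 3), (θ : E 3))) θ := by
        apply Continuous.continuousAt
        fun_prop
      exact ContinuousAt.comp (f := fun θ' : Sph 3 => ((θ' : E 3), (θ : E 3))) h3 h4
    have h5 := h2.tendsto
    rwa [InnerProductGeometry.angle_self h0] at h5
  unfold ContinuousAt
  rw [tendsto_iff_dist_tendsto_zero]
  refine squeeze_zero (fun _ => dist_nonneg) (fun θ' => ?_) h1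
  rw [Real.dist_eq]
  exact hF θ' θ

theorem norm_sph (θ : Sph 3) : ‖(θ : E 3)‖ = 1 := by simpa using θ.2

theorem inner_lt {x : E 3} (hx : ‖x‖ < 1) (θ : Sph 3) : |(inner ℝ x (θ : E 3) : ℝ)| < 1 := by
  have h1 := abs_real_inner_le_norm x (θ : E 3)
  rw [norm_sph, mul_one] at h1
  linarith

theorem DD_pos {x : E 3} (hx : ‖x‖ < 1) (θ : Sph 3) : 0 < DD x (θ : E 3) := by
  unfold DD
  apply Real.sqrt_pos.2
  have h1 := inner_lt hx θ
  have h2 : (inner ℝ x (θ : E 3) : ℝ) ^ 2 < 1 := by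
    rw [← sq_abs]
    nlinarith [abs_nonneg (inner ℝ x (θ : E 3) : ℝ)]
  linarith

theorem DD_cont (x : E 3) : Continuous (fun θ : Sph 3 => DD x (θ : E 3)) := by
  unfold DD
  fun_prop

theorem kernel_cont {F : Sph 3 → ℝ} (hF : Continuous F) {x : E 3} (hx : ‖x‖ < 1) :
    Continuous (fun θ : Sph 3 => (F θ - Real.arcsin (inner ℝ x (θ : E 3))) / DD x (θ : E 3) ^ 4) := by
  apply Continuous.div
  · apply hF.sub
    apply Real.continuous_arcsin.comp
    fun_prop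
  · exact (DD_cont x).pow 4
  · intro θ
    exact (pow_pos (DD_pos hx θ) 4).ne'

theorem integrable_sig {G : Type*} [NormedAddCommGroup G] {f : Sph 3 → G} (hf : Continuous f) :
    Integrable f (sig 3) :=
  hf.integrable_of_hasCompactSupport (HasCompactSupport.of_compactSpace f)

/-- the scalar product of `T` with a vector -/
theorem inner_T {F : Sph 3 → ℝ} (hF : Continuous F) {x : E 3} (hx : ‖x‖ < 1) (v : E 3) :
    (inner ℝ (T F x) v : ℝ) = ∫ θ : Sph 3, (1 - ‖x‖ ^ 2) *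
      ((F θ - Real.arcsin (inner ℝ x (θ : E 3))) / DD x (θ : E 3) ^ 4) *
        (inner ℝ (θ : E 3) v : ℝ) ∂(sig 3) := by
  have h1 : Integrable (fun θ : Sph 3 => ((F θ - Real.arcsin (inner ℝ x (θ : E 3))) /
      DD x (θ : E 3) ^ 4) • (θ : E 3)) (sig 3) :=
    integrable_sig ((kernel_cont hF hx).smul continuous_subtype_val)
  unfold T
  rw [real_inner_smul_left, real_inner_comm, ← integral_inner h1 v, ← integral_const_mul]
  congr 1
  funext θ
  rw [real_inner_smul_right, real_inner_comm (θ : E 3) v]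
  ring

/-- the scalar factor of the derivative of the kernel -/
noncomputable def kf (F : Sph 3 → ℝ) (x : E 3) (θ : Sph 3) : ℝ :=
  -(DD x (θ : E 3) ^ 5)⁻¹ + 4 * (inner ℝ x (θ : E 3) : ℝ) *
    (F θ - Real.arcsin (inner ℝ x (θ : E 3))) * (DD x (θ : E 3) ^ 6)⁻¹

/-- the derivative of the kernel -/
noncomputable def KK (F : Sph 3 → ℝ) (x : E 3) (θ : Sph 3) : E 3 →L[ℝ] E 3 :=
  (kf F x θ) • (innerSL ℝ (θ : E 3)).smulRight (θ : E 3)

theorem KK_apply (F : Sph 3 → ℝ) (x : E 3) (θ : Sph 3) (v : E 3) :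
    KK F x θ v = (kf F x θ * (inner ℝ (θ : E 3) v : ℝ)) • (θ : E 3) := by
  unfold KK
  rw [_root_.smul_apply, ContinuousLinearMap.smulRight_apply, innerSL_apply_apply,
    smul_smul]

theorem g_deriv (y a : ℝ) (ha : |a| < 1) :
    HasDerivAt (fun a => (y - Real.arcsin a) / √(1 - a ^ 2) ^ 4)
      (-(√(1 - a ^ 2) ^ 5)⁻¹ + 4 * a * (y - Real.arcsin a) * (√(1 - a ^ 2) ^ 6)⁻¹) a := by
  obtain ⟨h1, h2⟩ := abs_lt.1 ha
  have h3 : 0 < 1 - a ^ 2 := by nlinarith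
  have hs : 0 < √(1 - a ^ 2) := Real.sqrt_pos.2 h3
  have hA := (Real.hasDerivAt_arcsin h1.ne' h2.ne).const_sub y
  have hB : HasDerivAt (fun a : ℝ => 1 - a ^ 2) (-((2 : ℕ) * a ^ (2 - 1))) a :=
    (hasDerivAt_pow 2 a).const_sub 1
  have hC := (hB.sqrt h3.ne').pow 4
  have hD := hA.div hC (pow_pos hs 4).ne'
  convert! hD using 1
  simp only [Pi.pow_apply]
  set s := √(1 - a ^ 2)
  field_simp
  push_cast
  ring

theorem kernel_deriv (F : Sph 3 → ℝ) (θ : Sph 3) {x : E 3} (hx : ‖x‖ < 1) :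
    HasFDerivAt (fun x : E 3 => ((F θ - Real.arcsin (inner ℝ x (θ : E 3))) /
      DD x (θ : E 3) ^ 4) • (θ : E 3)) (KK F x θ) x := by
  have h1 : HasFDerivAt (fun x : E 3 => (inner ℝ x (θ : E 3) : ℝ)) (innerSL ℝ (θ : E 3)) x := by
    have h2 : (fun x : E 3 => (inner ℝ x (θ : E 3) : ℝ)) = fun x => innerSL ℝ (θ : E 3) x := by
      funext x
      rw [innerSL_apply_apply, real_inner_comm]
    rw [h2]
    exact (innerSL ℝ (θ : E 3)).hasFDerivAt
  have h3 := (g_deriv (F θ) (inner ℝ x (θ : E 3)) (inner_lt hx θ)).comp_hasFDerivAt x h1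
  have h4 := h3.smul_const (θ : E 3)
  have h5 : KK F x θ = ((-(√(1 - (inner ℝ x (θ : E 3) : ℝ) ^ 2) ^ 5)⁻¹ +
      4 * (inner ℝ x (θ : E 3) : ℝ) * (F θ - Real.arcsin (inner ℝ x (θ : E 3))) *
        (√(1 - (inner ℝ x (θ : E 3) : ℝ) ^ 2) ^ 6)⁻¹) • innerSL ℝ (θ : E 3)).smulRight (θ : E 3) := by
    apply ContinuousLinearMap.ext
    intro v
    rw [KK_apply, ContinuousLinearMap.smulRight_apply, _root_.smul_apply,
      innerSL_apply_apply, smul_eq_mul]
    rfl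
  rw [h5]
  exact h4

theorem kf_cont {F : Sph 3 → ℝ} (hF : Continuous F) {x : E 3} (hx : ‖x‖ < 1) :
    Continuous (kf F x) := by
  unfold kf
  apply Continuous.add
  · exact (((DD_cont x).pow 5).inv₀ (fun θ => (pow_pos (DD_pos hx θ) 5).ne')).neg
  · apply Continuous.mul
    · apply Continuous.mul
      · fun_prop
      · exact hF.sub (Real.continuous_arcsin.comp (by fun_prop))
    · exact ((DD_cont x).pow 6).inv₀ (fun θ => (pow_pos (DD_pos hx θ) 6).ne')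

theorem KK_cont {F : Sph 3 → ℝ} (hF : Continuous F) {x : E 3} (hx : ‖x‖ < 1) :
    Continuous (KK F x) := by
  rw [continuous_clm_apply]
  intro v
  simp only [KK_apply]
  exact ((kf_cont hF hx).mul (by fun_prop)).smul continuous_subtype_val

theorem int_deriv {F : Sph 3 → ℝ} (hF : Continuous F) {x : E 3} (hx : ‖x‖ < 1) :
    HasFDerivAt (fun x : E 3 => ∫ θ : Sph 3, ((F θ - Real.arcsin (inner ℝ x (θ : E 3))) /
      DD x (θ : E 3) ^ 4) • (θ : E 3) ∂(sig 3)) (∫ θ : Sph 3, KK F x θ ∂(sig 3)) x := by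
  obtain ⟨C, hC⟩ : ∃ C, ∀ θ, |F θ| ≤ C := by
    obtain ⟨C, hC⟩ := (isCompact_univ (X := Sph 3)).exists_bound_of_continuousOn hF.continuousOn
    exact ⟨C, fun θ => hC θ (mem_univ θ)⟩
  have hC0 : 0 ≤ C := (abs_nonneg _).trans (hC ⟨EuclideanSpace.single 0 1, by simp⟩)
  obtain ⟨ρ, hρ1, hρ2⟩ := exists_between hx
  have hρ0 : 0 ≤ ρ := (norm_nonneg x).trans hρ1.le
  have hmem : ball (0 : E 3) ρ ∈ 𝓝 x := isOpen_ball.mem_nhds (by simpa using hρ1)
  have hlow : ∀ y : E 3, ‖y‖ < ρ → ∀ θ : Sph 3, √(1 - ρ ^ 2) ≤ DD y (θ : E 3) := by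
    intro y hy θ
    unfold DD
    apply Real.sqrt_le_sqrt
    have h1 := abs_real_inner_le_norm y (θ : E 3)
    rw [norm_sph, mul_one] at h1
    have h2 : (inner ℝ y (θ : E 3) : ℝ) ^ 2 ≤ ρ ^ 2 := by
      rw [← sq_abs]
      exact pow_le_pow_left₀ (abs_nonneg _) (h1.trans hy.le) 2
    linarith
  have hs : 0 < √(1 - ρ ^ 2) := Real.sqrt_pos.2 (by nlinarith)
  apply hasFDerivAt_integral_of_dominated_of_fderiv_le
    (bound := fun _ => (√(1 - ρ ^ 2) ^ 5)⁻¹ + 4 * 1 * (C + Real.pi / 2) * (√(1 - ρ ^ 2) ^ 6)⁻¹) hmem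
  · filter_upwards [hmem] with y hy
    rw [mem_ball_zero_iff] at hy
    exact (((kernel_cont hF (hy.trans hρ2)).smul continuous_subtype_val)).aestronglyMeasurable
  · exact integrable_sig ((kernel_cont hF hx).smul continuous_subtype_val)
  · exact (KK_cont hF hx).aestronglyMeasurable
  · filter_upwards with θ
    intro y hy
    rw [mem_ball_zero_iff] at hy
    have hl := hlow y hy θ
    have hy1 := hy.trans hρ2
    have hin : |(inner ℝ y (θ : E 3) : ℝ)| ≤ 1 := (inner_lt hy1 θ).le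
    have h1 := DD_pos hy1 θ
    have h4 : (DD y (θ : E 3) ^ 5)⁻¹ ≤ (√(1 - ρ ^ 2) ^ 5)⁻¹ :=
      inv_anti₀ (by positivity) (pow_le_pow_left₀ hs.le hl 5)
    have h5 : (DD y (θ : E 3) ^ 6)⁻¹ ≤ (√(1 - ρ ^ 2) ^ 6)⁻¹ :=
      inv_anti₀ (by positivity) (pow_le_pow_left₀ hs.le hl 6)
    have h6 : |F θ - Real.arcsin (inner ℝ y (θ : E 3))| ≤ C + Real.pi / 2 := by
      refine (abs_sub _ _).trans (add_le_add (hC θ) ?_)
      rw [abs_le]
      exact ⟨Real.neg_pi_div_two_le_arcsin _, Real.arcsin_le_pi_div_two _⟩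
    have h7 : |kf F y θ| ≤ (√(1 - ρ ^ 2) ^ 5)⁻¹ +
        4 * 1 * (C + Real.pi / 2) * (√(1 - ρ ^ 2) ^ 6)⁻¹ := by
      unfold kf
      refine (abs_add_le _ _).trans (add_le_add ?_ ?_)
      · rw [abs_neg, abs_of_pos (by positivity)]
        exact h4
      · rw [abs_mul, abs_mul, abs_mul, abs_of_pos (show (0 : ℝ) < 4 by norm_num),
          abs_of_pos (show 0 < (DD y (θ : E 3) ^ 6)⁻¹ by positivity)]
        apply mul_le_mul _ h5 (by positivity) (by positivity)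
        apply mul_le_mul _ h6 (abs_nonneg _) (by positivity)
        exact mul_le_mul_of_nonneg_left hin (by norm_num)
    refine ContinuousLinearMap.opNorm_le_bound _ ((abs_nonneg _).trans h7) (fun v => ?_)
    rw [KK_apply, norm_smul, norm_sph, mul_one, norm_mul, Real.norm_eq_abs, Real.norm_eq_abs]
    apply mul_le_mul h7 _ (abs_nonneg _) ((abs_nonneg _).trans h7)
    have h8 := abs_real_inner_le_norm (θ : E 3) v
    rwa [norm_sph, one_mul] at h8
  · exact integrable_const _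
  · filter_upwards with θ
    intro y hy
    rw [mem_ball_zero_iff] at hy
    exact kernel_deriv F θ (hy.trans hρ2)

theorem T_deriv {F : Sph 3 → ℝ} (hF : Continuous F) {x : E 3} (hx : ‖x‖ < 1) :
    ∃ L : E 3 →L[ℝ] E 3, HasFDerivAt (T F) L x ∧ ∀ v v' : E 3,
      (inner ℝ (L v') v : ℝ) = (∫ θ : Sph 3, (1 - ‖x‖ ^ 2) * (kf F x θ *
        (inner ℝ (θ : E 3) v' : ℝ) * (inner ℝ (θ : E 3) v : ℝ)) ∂(sig 3)) -
        2 * (inner ℝ x v' : ℝ) * ((inner ℝ (T F x) v : ℝ) / (1 - ‖x‖ ^ 2)) := by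
  have hx2 : 0 < 1 - ‖x‖ ^ 2 := by nlinarith [norm_nonneg x]
  have h1 : HasFDerivAt (fun x : E 3 => 1 - ‖x‖ ^ 2) (-(2 • (innerSL ℝ x))) x :=
    ((hasStrictFDerivAt_norm_sq x).hasFDerivAt).const_sub 1
  have h2 := h1.smul (int_deriv hF hx)
  refine ⟨_, h2, fun v v' => ?_⟩
  rw [_root_.add_apply, _root_.smul_apply,
    ContinuousLinearMap.smulRight_apply, _root_.neg_apply,
    _root_.smul_apply, innerSL_apply_apply, inner_add_left,
    real_inner_smul_left, real_inner_smul_left,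
    ContinuousLinearMap.integral_apply (integrable_sig (KK_cont hF hx))]
  have h3 : (inner ℝ (∫ θ : Sph 3, KK F x θ v' ∂(sig 3)) v : ℝ) =
      ∫ θ : Sph 3, (kf F x θ * (inner ℝ (θ : E 3) v' : ℝ) * (inner ℝ (θ : E 3) v : ℝ)) ∂(sig 3) := by
    have hi : Integrable (fun θ => KK F x θ v') (sig 3) :=
      integrable_sig ((continuous_clm_apply.1 (KK_cont hF hx)) v')
    rw [real_inner_comm, ← integral_inner hi v]
    congr 1
    funext θ
    rw [KK_apply, real_inner_smul_right, real_inner_comm (θ : E 3) v]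
  have h4 : (inner ℝ (T F x) v : ℝ) / (1 - ‖x‖ ^ 2) =
      (inner ℝ (∫ θ : Sph 3, ((F θ - Real.arcsin (inner ℝ x (θ : E 3))) /
        DD x (θ : E 3) ^ 4) • (θ : E 3) ∂(sig 3)) v : ℝ) := by
    unfold T
    rw [real_inner_smul_left, mul_div_assoc, mul_comm, div_mul_cancel₀ _ hx2.ne']
  rw [h3, h4, integral_const_mul]
  simp only [nsmul_eq_mul, Nat.cast_ofNat]
  ring

/-! ### the new variables -/

section

variable {e : E 3} {r : ℝ}

theorem h_pos (h0 : 0 ≤ r) (h1 : r < 1) : 0 < √(1 - r ^ 2) :=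
  Real.sqrt_pos.2 (by nlinarith)

theorem h_sq (h0 : 0 ≤ r) (h1 : r < 1) : √(1 - r ^ 2) ^ 2 = 1 - r ^ 2 :=
  Real.sq_sqrt (by nlinarith)

theorem inner_e_Gi (he : ‖e‖ = 1) (z : E 3) :
    (inner ℝ e (Gi e r z) : ℝ) = (inner ℝ e z : ℝ) / √(1 - r ^ 2) := by
  unfold Gi
  rw [inner_add_right, real_inner_smul_right, real_inner_self_eq_norm_sq, he]
  ring

theorem Gi_symm (v w : E 3) : (inner ℝ (Gi e r v) w : ℝ) = inner ℝ v (Gi e r w) := by
  unfold Gi
  rw [inner_add_left, inner_add_right, real_inner_smul_left, real_inner_smul_right,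
    real_inner_comm e v]
  ring

theorem norm_Gi (he : ‖e‖ = 1) (h0 : 0 ≤ r) (h1 : r < 1) (z : E 3) :
    ‖Gi e r z‖ ^ 2 = ‖z‖ ^ 2 + (r / √(1 - r ^ 2)) ^ 2 * (inner ℝ e z : ℝ) ^ 2 := by
  have hp := h_pos h0 h1
  have hq := h_sq h0 h1
  rw [← real_inner_self_eq_norm_sq, Gi_symm]
  unfold Gi
  rw [inner_add_right, real_inner_smul_right, inner_add_right, inner_add_right,
    real_inner_smul_right, real_inner_smul_right, real_inner_self_eq_norm_sq,
    real_inner_self_eq_norm_sq, he, real_inner_comm e z]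
  have h2 : r ^ 2 = 1 - √(1 - r ^ 2) ^ 2 := by rw [hq]; ring
  rw [div_pow, h2]
  generalize √(1 - r ^ 2) = c at hp
  rw [show 1 - (1 - c ^ 2) = c ^ 2 by ring, Real.sqrt_sq hp.le]
  field_simp
  ring

theorem Gi_norm_pos (he : ‖e‖ = 1) (h0 : 0 ≤ r) (h1 : r < 1) (u : Sph 3) :
    0 < ‖Gi e r (u : E 3)‖ := by
  have h2 := norm_Gi he h0 h1 (u : E 3)
  rw [norm_sph] at h2
  have h3 : 0 < ‖Gi e r (u : E 3)‖ ^ 2 := by rw [h2]; positivity
  have h4 := norm_nonneg (Gi e r (u : E 3))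
  exact lt_of_le_of_ne h4 (fun h5 => by rw [← h5] at h3; norm_num at h3)

theorem pt_coe {v : E 3} (hv : v ≠ 0) : ((pt v : Sph 3) : E 3) = ‖v‖⁻¹ • v := by
  unfold pt
  rw [dif_pos hv]

theorem inner_pt_Gi (he : ‖e‖ = 1) (h0 : 0 ≤ r) (h1 : r < 1) (u : Sph 3) (v : E 3) :
    (inner ℝ ((pt (Gi e r (u : E 3)) : Sph 3) : E 3) v : ℝ) =
      (inner ℝ (u : E 3) (Gi e r v) : ℝ) / ‖Gi e r (u : E 3)‖ := by
  have hn := Gi_norm_pos he h0 h1 u
  rw [pt_coe (norm_pos_iff.1 hn), real_inner_smul_left, Gi_symm]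
  ring

theorem inner_x_pt (he : ‖e‖ = 1) (h0 : 0 ≤ r) (h1 : r < 1) (u : Sph 3) :
    (inner ℝ (r • e) ((pt (Gi e r (u : E 3)) : Sph 3) : E 3) : ℝ) =
      r / √(1 - r ^ 2) * (inner ℝ e (u : E 3) : ℝ) / ‖Gi e r (u : E 3)‖ := by
  rw [real_inner_comm, inner_pt_Gi he h0 h1]
  have : (inner ℝ (u : E 3) (Gi e r (r • e)) : ℝ) = r / √(1 - r ^ 2) * (inner ℝ e (u : E 3) : ℝ) := by
    rw [← Gi_symm, real_inner_smul_right, real_inner_comm e, inner_e_Gi he]
    ring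
  rw [this]

theorem DD_pt (he : ‖e‖ = 1) (h0 : 0 ≤ r) (h1 : r < 1) (u : Sph 3) :
    DD (r • e) ((pt (Gi e r (u : E 3)) : Sph 3) : E 3) = ‖Gi e r (u : E 3)‖⁻¹ := by
  have hn := Gi_norm_pos he h0 h1 u
  unfold DD
  rw [inner_x_pt he h0 h1]
  have h2 := norm_Gi he h0 h1 (u : E 3)
  rw [norm_sph] at h2
  have h3 : 1 - (r / √(1 - r ^ 2) * (inner ℝ e (u : E 3) : ℝ) / ‖Gi e r (u : E 3)‖) ^ 2 =
      (‖Gi e r (u : E 3)‖⁻¹) ^ 2 := by
    rw [div_pow, mul_pow, inv_pow, show (r / √(1 - r ^ 2)) ^ 2 * (inner ℝ e (u : E 3) : ℝ) ^ 2 =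
      ‖Gi e r (u : E 3)‖ ^ 2 - 1 by rw [h2]; ring]
    field_simp
    ring
  rw [h3, Real.sqrt_sq (inv_nonneg.2 hn.le)]

theorem arcsin_pt (he : ‖e‖ = 1) (h0 : 0 ≤ r) (h1 : r < 1) (u : Sph 3) :
    Real.arcsin (inner ℝ (r • e) ((pt (Gi e r (u : E 3)) : Sph 3) : E 3)) =
      Real.arctan (r / √(1 - r ^ 2) * ((inner ℝ e (u : E 3) : ℝ) / ‖(u : E 3)‖)) := by
  have hx : ‖r • e‖ < 1 := by rw [norm_smul, he, mul_one, Real.norm_eq_abs, abs_of_nonneg h0]; exact h1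
  have hn := Gi_norm_pos he h0 h1 u
  have hlt := inner_lt hx (pt (Gi e r (u : E 3)))
  rw [Real.arcsin_eq_arctan (abs_lt.1 hlt)]
  have hD := DD_pt he h0 h1 u
  unfold DD at hD
  rw [hD, inner_x_pt he h0 h1, norm_sph]
  congr 1
  field_simp

theorem dl_eq (he : ‖e‖ = 1) (h0 : 0 ≤ r) (h1 : r < 1) (F : Sph 3 → ℝ) (u : Sph 3) :
    F (pt (Gi e r (u : E 3))) -
      Real.arcsin (inner ℝ (r • e) ((pt (Gi e r (u : E 3)) : Sph 3) : E 3)) =
      dl F e r (u : E 3) := by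
  rw [arcsin_pt he h0 h1]
  rfl

theorem pt_cont (he : ‖e‖ = 1) (h0 : 0 ≤ r) (h1 : r < 1) :
    Continuous (fun u : Sph 3 => (pt (Gi e r (u : E 3)) : Sph 3)) := by
  rw [continuous_induced_rng]
  have hG : Continuous (fun u : Sph 3 => Gi e r (u : E 3)) := by
    unfold Gi
    fun_prop
  have h2 : (Subtype.val ∘ fun u : Sph 3 => (pt (Gi e r (u : E 3)) : Sph 3)) =
      fun u : Sph 3 => ‖Gi e r (u : E 3)‖⁻¹ • Gi e r (u : E 3) := by
    funext u
    exact pt_coe (norm_pos_iff.1 (Gi_norm_pos he h0 h1 u))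
  rw [h2]
  exact (hG.norm.inv₀ (fun u => (Gi_norm_pos he h0 h1 u).ne')).smul hG

theorem dl_cont (he : ‖e‖ = 1) (h0 : 0 ≤ r) (h1 : r < 1) {F : Sph 3 → ℝ} (hF : Continuous F) :
    Continuous (fun u : Sph 3 => dl F e r (u : E 3)) := by
  have h2 : (fun u : Sph 3 => dl F e r (u : E 3)) = fun u : Sph 3 =>
      F (pt (Gi e r (u : E 3))) - Real.arctan (r / √(1 - r ^ 2) * (inner ℝ e (u : E 3) : ℝ)) := by
    funext u
    unfold dl
    rw [norm_sph, div_one]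
  rw [h2]
  exact (hF.comp (pt_cont he h0 h1)).sub (Real.continuous_arctan.comp (by fun_prop))

theorem T_new (hCH : S_CH) (he : ‖e‖ = 1) (h0 : 0 ≤ r) (h1 : r < 1) {F : Sph 3 → ℝ}
    (hF : Continuous F) (w : E 3) :
    (inner ℝ (T F (r • e)) w : ℝ) = √(1 - r ^ 2) * am F e r (Gi e r w) := by
  have hre : ‖r • e‖ = r := by rw [norm_smul, he, mul_one, Real.norm_eq_abs, abs_of_nonneg h0]
  have hx : ‖r • e‖ < 1 := by rw [hre]; exact h1
  have hp := h_pos h0 h1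
  have hq := h_sq h0 h1
  have hc : Continuous (fun θ : Sph 3 => (1 - ‖r • e‖ ^ 2) *
      ((F θ - Real.arcsin (inner ℝ (r • e) (θ : E 3))) / DD (r • e) (θ : E 3) ^ 4) *
        (inner ℝ (θ : E 3) w : ℝ)) :=
    (continuous_const.mul (kernel_cont hF hx)).mul (by fun_prop)
  rw [inner_T hF hx w, hCH e he r h0 h1 _ hc]
  unfold am
  rw [← integral_const_mul]
  congr 1
  funext u
  have hn := Gi_norm_pos he h0 h1 u
  rw [dl_eq he h0 h1, DD_pt he h0 h1, inner_pt_Gi he h0 h1, hre, ← hq, Real.sqrt_sq hp.le]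
  field_simp

theorem s_FR (hCH : S_CH) : S_FR := by
  intro e he r h0 h1 F hF
  have hFc := lip_cont hF
  have hT := fun w => T_new hCH he h0 h1 hFc w
  refine ⟨hT, ?_⟩
  have hre : ‖r • e‖ = r := by rw [norm_smul, he, mul_one, Real.norm_eq_abs, abs_of_nonneg h0]
  have hx : ‖r • e‖ < 1 := by rw [hre]; exact h1
  have hp := h_pos h0 h1
  have hq := h_sq h0 h1
  obtain ⟨L, hL, hLv⟩ := T_deriv hFc hx
  refine ⟨L, hL, fun v w => ?_⟩
  have hG : Continuous (fun θ : Sph 3 => (1 - ‖r • e‖ ^ 2) * (kf F (r • e) θ *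
        (inner ℝ (θ : E 3) v : ℝ) * (inner ℝ (θ : E 3) w : ℝ))) :=
    (continuous_const).mul (((kf_cont hFc hx).mul (by fun_prop)).mul (by fun_prop))
  rw [hLv w v, hCH e he r h0 h1 _ hG, hT w, hre, ← hq, Real.sqrt_sq hp.le]
  unfold BB
  rw [mul_add, neg_add, ← integral_const_mul, ← integral_neg, sub_eq_add_neg, inner_e_Gi he,
    real_inner_smul_left]
  congr 1
  · congr 1
    funext u
    have hn := Gi_norm_pos he h0 h1 u
    unfold kf
    rw [dl_eq he h0 h1, DD_pt he h0 h1, inner_pt_Gi he h0 h1, inner_pt_Gi he h0 h1,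
      inner_x_pt he h0 h1]
    field_simp
    ring
  · field_simp

end

end Pool.Agent.L7h21.FB
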