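import Pool.Agent.L7h21.FB.La
import Pool.Agent.L7h21.FB.Fr

/-! [FB-DET] of project FB (helper64): the Jacobian of `T` and injectivity. -/

set_option autoImplicit false
set_option linter.unusedVariables false

open MeasureTheory Metric Set Filter Topology

namespace Pool.Agent.L7h21.FB

open Pool.Agent.H241R3.FV (E Sph sig)
open Pool.Agent.L7h64.FB

theorem exists_unit (x : E 3) : ∃ e : E 3, ‖e‖ = 1 ∧ x = ‖x‖ • e := by
  by_cases hx : x = 0
  · exact ⟨EuclideanSpace.single 0 1, by simp, by rw [hx]; simp⟩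
  · have h1 : ‖‖x‖⁻¹ • x‖ = 1 := by
      rw [norm_smul, norm_inv, norm_norm, inv_mul_cancel₀ (norm_ne_zero_iff.2 hx)]
    exact ⟨_, h1, by rw [smul_smul, mul_inv_cancel₀ (norm_ne_zero_iff.2 hx), one_smul]⟩

/-- the map `Γ` -/
noncomputable def Ga (e : E 3) (c : ℝ) : E 3 →ₗ[ℝ] E 3 :=
  LinearMap.transvection ((c - 1) • (innerSL ℝ e : E 3 →L[ℝ] ℝ).toLinearMap) e

theorem Ga_apply (e : E 3) (c : ℝ) (z : E 3) :
    Ga e c z = z + ((c - 1) * (inner ℝ e z : ℝ)) • e := by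
  unfold Ga
  rw [LinearMap.transvection.apply]
  rfl

theorem Ga_det {e : E 3} (he : ‖e‖ = 1) (c : ℝ) : LinearMap.det (Ga e c) = c := by
  unfold Ga
  rw [LinearMap.transvection.det]
  have : ((c - 1) • (innerSL ℝ e : E 3 →L[ℝ] ℝ).toLinearMap) e = (c - 1) * (inner ℝ e e : ℝ) := rfl
  rw [this, real_inner_self_eq_norm_sq, he]
  ring

theorem Gi_Ga {e : E 3} (he : ‖e‖ = 1) {r : ℝ} (h0 : 0 ≤ r) (h1 : r < 1) (z : E 3) :
    Gi e r (Ga e √(1 - r ^ 2) z) = z := by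
  have hp := h_pos h0 h1
  rw [Ga_apply]
  unfold Gi
  rw [inner_add_right, real_inner_smul_right, real_inner_self_eq_norm_sq, he, add_assoc,
    ← add_smul]
  have : (√(1 - r ^ 2) - 1) * (inner ℝ e z : ℝ) + (1 / √(1 - r ^ 2) - 1) *
      ((inner ℝ e z : ℝ) + (√(1 - r ^ 2) - 1) * (inner ℝ e z : ℝ) * 1 ^ 2) = 0 := by
    field_simp
    ring
  rw [this, zero_smul, add_zero]

theorem Ga_Gi {e : E 3} (he : ‖e‖ = 1) {r : ℝ} (h0 : 0 ≤ r) (h1 : r < 1) (z : E 3) :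
    Ga e √(1 - r ^ 2) (Gi e r z) = z := by
  have hp := h_pos h0 h1
  rw [Ga_apply]
  unfold Gi
  rw [inner_add_right, real_inner_smul_right, real_inner_self_eq_norm_sq, he, add_assoc,
    ← add_smul]
  have : (1 / √(1 - r ^ 2) - 1) * (inner ℝ e z : ℝ) + (√(1 - r ^ 2) - 1) *
      ((inner ℝ e z : ℝ) + (1 / √(1 - r ^ 2) - 1) * (inner ℝ e z : ℝ) * 1 ^ 2) = 0 := by
    field_simp
    ring
  rw [this, zero_smul, add_zero]

theorem Ga_symm (e : E 3) (c : ℝ) (v w : E 3) :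
    (inner ℝ (Ga e c v) w : ℝ) = inner ℝ v (Ga e c w) := by
  rw [Ga_apply, Ga_apply, inner_add_left, inner_add_right, real_inner_smul_left,
    real_inner_smul_right, real_inner_comm e v]
  ring

theorem Ga_norm {e : E 3} (he : ‖e‖ = 1) {c : ℝ} (h0 : 0 ≤ c) (h1 : c ≤ 1) (z : E 3) :
    ‖Ga e c z‖ ≤ ‖z‖ := by
  have h2 : ‖Ga e c z‖ ^ 2 ≤ ‖z‖ ^ 2 := by
    rw [← real_inner_self_eq_norm_sq, ← real_inner_self_eq_norm_sq, Ga_apply, inner_add_left,
      inner_add_right, inner_add_right, real_inner_smul_left, real_inner_smul_right,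
      real_inner_smul_left, real_inner_smul_right, real_inner_self_eq_norm_sq e, he,
      real_inner_comm e z]
    have : (inner ℝ z z : ℝ) + (c - 1) * (inner ℝ e z : ℝ) * (inner ℝ e z : ℝ) +
        ((c - 1) * (inner ℝ e z : ℝ) * (inner ℝ e z : ℝ) +
          (c - 1) * (inner ℝ e z : ℝ) * ((c - 1) * (inner ℝ e z : ℝ) * 1 ^ 2)) =
        (inner ℝ z z : ℝ) - (1 - c ^ 2) * (inner ℝ e z : ℝ) ^ 2 := by ring
    have h3 : 0 ≤ (1 - c ^ 2) * (inner ℝ e z : ℝ) ^ 2 := mul_nonneg (by nlinarith) (sq_nonneg _)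
    linarith
  exact le_of_sq_le_sq h2 (norm_nonneg z)

section

variable {e : E 3} {r : ℝ} {F : Sph 3 → ℝ}

/-- the operator of the form `BB` -/
theorem setup (hFR : S_FR) (he : ‖e‖ = 1) (h0 : 0 ≤ r) (h1 : r < 1) (hF : Lip1 F) :
    ∃ (L B : E 3 →L[ℝ] E 3), HasFDerivAt (T F) L (r • e) ∧
      (∀ v w : E 3, (inner ℝ (B v) w : ℝ) = BB F e r v w) ∧
      L.det = -(√(1 - r ^ 2) * B.det) ∧
      (∀ v : E 3, (inner ℝ (L v) v : ℝ) =
        -(√(1 - r ^ 2) * (inner ℝ (B (Gi e r v)) (Gi e r v) : ℝ))) := by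
  have hp := h_pos h0 h1
  obtain ⟨hT, L, hL, hLv⟩ := hFR e he r h0 h1 F hF
  set c : ℝ := √(1 - r ^ 2) with hc
  set M : E 3 →ₗ[ℝ] E 3 := (-c⁻¹) • ((Ga e c).comp ((L : E 3 →ₗ[ℝ] E 3).comp (Ga e c))) with hM
  have hMi : ∀ v w : E 3, (inner ℝ (M v) w : ℝ) = BB F e r v w := by
    intro v w
    have h2 : M v = (-c⁻¹) • (Ga e c (L (Ga e c v))) := rfl
    rw [h2, real_inner_smul_left, Ga_symm, hLv, Gi_Ga he h0 h1, Gi_Ga he h0 h1]
    field_simp
  refine ⟨L, LinearMap.toContinuousLinearMap M, hL, hMi, ?_, ?_⟩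
  · have h2 : (LinearMap.toContinuousLinearMap M).det = LinearMap.det M := rfl
    have h3 : L.det = LinearMap.det (L : E 3 →ₗ[ℝ] E 3) := rfl
    rw [h2, h3, hM, LinearMap.det_smul, LinearMap.det_comp, LinearMap.det_comp, Ga_det he]
    have hfr : Module.finrank ℝ (E 3) = 3 := by simp [E]
    rw [hfr]
    field_simp
  · intro v
    rw [hLv]
    congr 2
    exact (hMi _ _).symm

theorem am_le (hFR : S_FR) (he : ‖e‖ = 1) (h0 : 0 ≤ r) (h1 : r < 1) (hF : Lip1 F) (w : E 3) :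
    |am F e r w| ≤ ‖T F (r • e)‖ * ‖w‖ / √(1 - r ^ 2) := by
  have hp := h_pos h0 h1
  have hle : √(1 - r ^ 2) ≤ 1 := by
    rw [Real.sqrt_le_one]
    nlinarith
  obtain ⟨hT, -⟩ := hFR e he r h0 h1 F hF
  have h2 := hT (Ga e √(1 - r ^ 2) w)
  rw [Gi_Ga he h0 h1] at h2
  rw [le_div_iff₀ hp]
  have h3 := abs_real_inner_le_norm (T F (r • e)) (Ga e √(1 - r ^ 2) w)
  rw [h2, abs_mul, abs_of_pos hp] at h3
  have h4 := Ga_norm he hp.le hle w
  have h5 := mul_le_mul_of_nonneg_left h4 (norm_nonneg (T F (r • e)))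
  linarith

end

/-- the derivative is negative definite -/
theorem neg_def (hFR : S_FR) (hQF : S_QF) {F : Sph 3 → ℝ} (hF : Lip1 F) {x : E 3} (hx : ‖x‖ < 1) :
    ∃ L : E 3 →L[ℝ] E 3, HasFDerivAt (T F) L x ∧ ∀ v : E 3, v ≠ 0 → (inner ℝ (L v) v : ℝ) < 0 := by
  obtain ⟨e, he, hxe⟩ := exists_unit x
  obtain ⟨L, B, hL, hB, -, hLB⟩ := setup hFR he (norm_nonneg x) hx hF
  rw [← hxe] at hL
  refine ⟨L, hL, fun v hv => ?_⟩
  have hp := h_pos (norm_nonneg x) hx
  rw [hLB v]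
  have hw : Gi e ‖x‖ v ≠ 0 := by
    intro h
    have := Ga_Gi he (norm_nonneg x) hx v
    rw [h, map_zero] at this
    exact hv this.symm
  set w := Gi e ‖x‖ v with hwdef
  have hn : 0 < ‖w‖ := norm_pos_iff.2 hw
  obtain ⟨h1, -, -⟩ := hQF e he ‖x‖ (norm_nonneg x) hx F hF
  have hu : ‖‖w‖⁻¹ • w‖ = 1 := by
    rw [norm_smul, norm_inv, norm_norm, inv_mul_cancel₀ hn.ne']
  obtain ⟨-, -, h2⟩ := h1 _ hu
  rw [← hB, map_smul, real_inner_smul_left, real_inner_smul_right] at h2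
  have h3 : 0 < ‖w‖⁻¹ * (‖w‖⁻¹ * (inner ℝ (B w) w : ℝ)) :=
    lt_of_lt_of_le (by positivity) h2
  have h4 : 0 < (inner ℝ (B w) w : ℝ) := by
    have h5 : 0 < ‖w‖⁻¹ := inv_pos.2 hn
    exact (mul_pos_iff_of_pos_left h5).1 ((mul_pos_iff_of_pos_left h5).1 h3)
  have := mul_pos hp h4
  linarith

theorem T_inj (hFR : S_FR) (hQF : S_QF) {F : Sph 3 → ℝ}
    (hF : Lip1 F) {x y : E 3} (hx : ‖x‖ < 1) (hy : ‖y‖ < 1) (hxy : T F x = T F y) : x = y := by
  by_contra hne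
  have key : ∀ z : E 3, ‖z‖ < 1 → ∃ L : E 3 →L[ℝ] E 3, HasFDerivAt (T F) L z ∧
      ∀ v : E 3, v ≠ 0 → (inner ℝ (L v) v : ℝ) < 0 := fun z hz => neg_def hFR hQF hF hz
  choose! L hL hneg using key
  set u : E 3 := y - x with hu
  have hu0 : u ≠ 0 := sub_ne_zero.2 (Ne.symm hne)
  have hz : ∀ t ∈ Icc (0 : ℝ) 1, ‖x + t • u‖ < 1 := by
    intro t ht
    have h1 : x + t • u = (1 - t) • x + t • y := by rw [hu, smul_sub, sub_smul, one_smul]; abel
    have h2 := (convex_ball (0 : E 3) 1) (mem_ball_zero_iff.2 hx) (mem_ball_zero_iff.2 hy)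
      (by linarith [ht.2] : (0 : ℝ) ≤ 1 - t) ht.1 (by ring)
    rw [h1]
    exact mem_ball_zero_iff.1 h2
  have hline : ∀ t : ℝ, HasDerivAt (fun t : ℝ => x + t • u) u t := by
    intro t
    have := ((hasDerivAt_id t).smul_const u).const_add x
    simpa using this
  have hd : ∀ t ∈ Icc (0 : ℝ) 1, HasDerivAt (fun t : ℝ => (inner ℝ (T F (x + t • u)) u : ℝ))
      (inner ℝ (L (x + t • u) u) u) t := by
    intro t ht
    have h1 := (hL _ (hz t ht)).comp_hasDerivAt t (hline t)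
    have h2 := h1.inner ℝ (hasDerivAt_const t u)
    simpa using h2
  obtain ⟨t, ht, hteq⟩ := exists_hasDerivAt_eq_slope
    (fun t : ℝ => (inner ℝ (T F (x + t • u)) u : ℝ))
    (fun t : ℝ => (inner ℝ (L (x + t • u) u) u : ℝ)) (zero_lt_one)
    (fun t ht => (hd t ht).continuousAt.continuousWithinAt)
    (fun t ht => hd t (Ioo_subset_Icc_self ht))
  have h1 : x + (1 : ℝ) • u = y := by rw [hu, one_smul]; abel
  have h2 : x + (0 : ℝ) • u = x := by rw [zero_smul, add_zero]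
  simp only [h1, h2, hxy, sub_self, zero_div] at hteq
  have h3 := hneg _ (hz t (Ioo_subset_Icc_self ht)) u hu0
  linarith

/-- the numerical part -/
theorem num_part {P lam η D tr : ℝ} (hP : 0 < P) (hl0 : 0 ≤ lam) (hl1 : lam ≤ 1) (hη : 0 ≤ η)
    (hη1 : η < P / 3) (htr : 3 * P - 2 * η ≤ tr)
    (hD : (P * (1 - 199 / 500 * lam) - 17 / 50 * η) * (P * (1 + 1 / 2 * lam) + η) *
      (tr - (P * (1 - 199 / 500 * lam) - 17 / 50 * η) - (P * (1 + 1 / 2 * lam) + η)) ≤ D) :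
    P ^ 3 * ((1 - 199 / 500 * lam) * (1 - 51 / 500 * lam) * (1 + 1 / 2 * lam)) -
      9 / 2 * P ^ 2 * η ≤ D := by
  set A : ℝ := 1 - 199 / 500 * lam with hA
  set B : ℝ := 1 + 1 / 2 * lam with hB
  set C : ℝ := 1 - 51 / 500 * lam with hC
  have hA0 : 3 / 5 ≤ A := by rw [hA]; linarith
  have hA1 : A ≤ 1 := by rw [hA]; linarith
  have hB0 : 1 ≤ B := by rw [hB]; linarith
  have hB1 : B ≤ 3 / 2 := by rw [hB]; linarith
  have hC0 : 448 / 500 ≤ C := by rw [hC]; linarith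
  have hC1 : C ≤ 1 := by rw [hC]; linarith
  have h1 : 0 < P * A - 17 / 50 * η := by nlinarith
  have h2 : 0 < P * B + η := by nlinarith
  have h3 : 0 ≤ P * C - 133 / 50 * η := by nlinarith
  have h4 : P * C - 133 / 50 * η ≤ tr - (P * A - 17 / 50 * η) - (P * B + η) := by
    have : P * C = 3 * P - P * A - P * B := by rw [hA, hB, hC]; ring
    rw [this]
    linarith
  have h5 : (P * A - 17 / 50 * η) * (P * B + η) * (P * C - 133 / 50 * η) ≤ D :=
    (mul_le_mul_of_nonneg_left h4 (mul_pos h1 h2).le).trans hD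
  have h6 : (P * A - 17 / 50 * η) * (P * B) * (P * C - 133 / 50 * η) ≤
      (P * A - 17 / 50 * η) * (P * B + η) * (P * C - 133 / 50 * η) := by
    apply mul_le_mul_of_nonneg_right _ h3
    apply mul_le_mul_of_nonneg_left _ h1.le
    linarith
  have h7 : (P * A - 17 / 50 * η) * (P * B) * (P * C - 133 / 50 * η) =
      P ^ 3 * (A * C * B) - P ^ 2 * η * (B * (133 / 50 * A + 17 / 50 * C)) +
        P * B * (17 / 50 * (133 / 50)) * η ^ 2 := by ring
  have h8 : B * (133 / 50 * A + 17 / 50 * C) ≤ 9 / 2 := by nlinarith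
  have h9 : P ^ 2 * η * (B * (133 / 50 * A + 17 / 50 * C)) ≤ P ^ 2 * η * (9 / 2) :=
    mul_le_mul_of_nonneg_left h8 (by positivity)
  have h10 : 0 ≤ P * B * (17 / 50 * (133 / 50)) * η ^ 2 := by
    have : 0 < B := by linarith
    positivity
  linarith [h5, h6, h7, h9, h10]

theorem psi_le {r : ℝ} (h0 : 0 ≤ r) (h1 : r < 1) : psi r ≤ 3 / 2 := by
  have hl0 : 0 ≤ 2 * r / (1 + r) := by positivity
  have hl1 : 2 * r / (1 + r) ≤ 1 := by rw [div_le_one (by linarith)]; linarith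
  unfold psi
  generalize 2 * r / (1 + r) = lam at hl0 hl1
  have h2 : (1 - 199 / 500 * lam) * (1 - 51 / 500 * lam) ≤ 1 := by nlinarith
  have h3 : 1 + 1 / 2 * lam ≤ 3 / 2 := by linarith
  have h4 : 0 ≤ 1 + 1 / 2 * lam := by linarith
  nlinarith

theorem s_DET (hFR : S_FR) (hQF : S_QF) (hLA : S_LA) : S_DET := by
  intro r0 hr0 hr1
  have hc0 := h_pos hr0.le hr1
  set c0 : ℝ := √(1 - r0 ^ 2) with hc0def
  set P : ℝ := 4 * Real.pi / 3 with hP
  have hPp : 0 < P := by rw [hP]; positivity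
  refine ⟨9 / 2 * P ^ 2 * (r0 / c0 / c0), by positivity, fun F hF =>
    ⟨fun x hx => ?_, fun x y hx hy hxy => T_inj hFR hQF hF hx hy hxy⟩⟩
  have hx1 : ‖x‖ < 1 := hx.trans_lt hr1
  obtain ⟨e, he, hxe⟩ := exists_unit x
  obtain ⟨L, B, hL, hB, hdet, -⟩ := setup hFR he (norm_nonneg x) hx1 hF
  have ham := fun w => am_le (w := w) hFR he (norm_nonneg x) hx1 hF
  rw [← hxe] at hL
  refine ⟨L, hL, ?_⟩
  obtain ⟨hq1, -, hq3⟩ := hQF e he ‖x‖ (norm_nonneg x) hx1 F hF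
  have hr := norm_nonneg x
  have hp := h_pos hr hx1
  have hpsi := psi_le hr hx1
  rw [← hxe] at ham
  set t : ℝ := ‖T F x‖ with ht
  have ht0 : 0 ≤ t := norm_nonneg _
  have hhle : √(1 - ‖x‖ ^ 2) ≤ 1 := by
    rw [Real.sqrt_le_one]
    nlinarith
  have hcc : c0 ≤ √(1 - ‖x‖ ^ 2) := Real.sqrt_le_sqrt (by nlinarith)
  set h : ℝ := √(1 - ‖x‖ ^ 2) with hh
  set r : ℝ := ‖x‖ with hrd
  set η : ℝ := r0 / c0 / c0 * t with hη
  have hη0 : 0 ≤ η := by positivity
  have hτ0 : 0 ≤ r / h := div_nonneg hr hp.le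
  have hτ : r / h ≤ r0 / c0 := div_le_div₀ hr0.le hx hc0 hcc
  have hae : ∀ w : E 3, ‖w‖ = 1 → |r / h * am F e r w| ≤ η := by
    intro w hw
    have h2 := ham w
    rw [hw, mul_one] at h2
    have h3 : t / h ≤ t / c0 := div_le_div_of_nonneg_left ht0 hc0 hcc
    rw [abs_mul, abs_of_nonneg hτ0, hη]
    calc r / h * |am F e r w| ≤ r0 / c0 * (t / c0) :=
          mul_le_mul hτ (h2.trans h3) (abs_nonneg _) (by positivity)
      _ = _ := by ring
  rw [show 9 / 2 * P ^ 2 * (r0 / c0 / c0) * t = 9 / 2 * P ^ 2 * η by rw [hη]; ring]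
  have hdet2 : h * B.det ≤ |L.det| := by
    rw [hdet, abs_neg]
    exact le_abs_self _
  by_cases hsm : η < P / 3
  · -- the main case
    have hl0 : 0 ≤ 2 * r / (1 + r) := by positivity
    have hl1 : 2 * r / (1 + r) ≤ 1 := by rw [div_le_one (by linarith)]; linarith
    have hee := hae e he
    rw [abs_le] at hee
    have hev : ∀ v : E 3, ‖v‖ = 1 → |r / h * ((inner ℝ e v : ℝ) * am F e r v)| ≤ η := by
      intro v hv
      have h2 := hae v hv
      have h3 : |(inner ℝ e v : ℝ)| ≤ 1 := by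
        have := abs_real_inner_le_norm e v
        rwa [he, hv, mul_one] at this
      rw [show r / h * ((inner ℝ e v : ℝ) * am F e r v) =
        (inner ℝ e v : ℝ) * (r / h * am F e r v) by ring, abs_mul]
      calc |(inner ℝ e v : ℝ)| * |r / h * am F e r v| ≤ 1 * η :=
            mul_le_mul h3 h2 (abs_nonneg _) zero_le_one
        _ = η := one_mul _
    unfold psi
    have hlb : 0 < P * (1 - 199 / 500 * (2 * r / (1 + r))) - 17 / 50 * η := by nlinarith
    have hlk : P * (1 - 199 / 500 * (2 * r / (1 + r))) - 17 / 50 * η ≤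
        P * (1 + 1 / 2 * (2 * r / (1 + r))) + η := by nlinarith
    have hLA' := hLA B _ _ hlb hlk (fun v hv => by
      obtain ⟨h2, h3, -⟩ := hq1 v hv
      rw [hB]
      rw [← hP] at h2 h3
      have h4 := hev v hv
      rw [abs_le] at h4
      constructor
      · have h5 : r / h * (17 / 100) * ((inner ℝ e v : ℝ) * am F e r v - am F e r e) =
          17 / 100 * (r / h * ((inner ℝ e v : ℝ) * am F e r v)) -
            17 / 100 * (r / h * am F e r e) := by ring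
        rw [h5] at h3
        linarith [h3, h4.1, hee.2]
      · linarith [h2, hee.1])
    have htr : 3 * P - 2 * η ≤ ∑ i : Fin 3, (inner ℝ (B (EuclideanSpace.single i 1))
        (EuclideanSpace.single i 1) : ℝ) := by
      have h2 := hq3 (EuclideanSpace.basisFun (Fin 3) ℝ)
      have h3 : ∀ i : Fin 3, BB F e r ((EuclideanSpace.basisFun (Fin 3) ℝ) i)
          ((EuclideanSpace.basisFun (Fin 3) ℝ) i) =
          inner ℝ (B (EuclideanSpace.single i 1)) (EuclideanSpace.single i 1) := by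
        intro i
        rw [EuclideanSpace.basisFun_apply, hB]
      rw [Finset.sum_congr rfl (fun i _ => h3 i)] at h2
      rw [h2, hP]
      linarith [hee.2]
    have hfin := num_part hPp hl0 hl1 hη0 hsm htr hLA'
    have h2 := mul_le_mul_of_nonneg_left hfin hp.le
    have h3 : h * (9 / 2 * P ^ 2 * η) ≤ 1 * (9 / 2 * P ^ 2 * η) :=
      mul_le_mul_of_nonneg_right hhle (by positivity)
    rw [mul_sub] at h2
    linarith [h2, h3, hdet2]
  · push Not at hsm
    have h2 : P ^ 3 * h * psi r ≤ P ^ 3 * 1 * (3 / 2) := by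
      by_cases h3 : 0 ≤ psi r
      · apply mul_le_mul _ hpsi h3 (by positivity)
        exact mul_le_mul_of_nonneg_left hhle (by positivity)
      · push Not at h3
        have h4 : P ^ 3 * h * psi r ≤ 0 :=
          mul_nonpos_of_nonneg_of_nonpos (by positivity) h3.le
        exact h4.trans (by positivity)
    have h3 : P ^ 3 * 1 * (3 / 2) ≤ 9 / 2 * P ^ 2 * η := by
      have := mul_le_mul_of_nonneg_left hsm (show 0 ≤ 9 / 2 * P ^ 2 by positivity)
      linarith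
    have h4 := abs_nonneg L.det
    linarith

end Pool.Agent.L7h21.FB
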