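import Pool.Agent.L7h64.FB.Stm

/-! [FB-LA] of project FB (helper64): linear algebra in dimension 3. -/

set_option autoImplicit false
set_option linter.unusedVariables false

open MeasureTheory Metric Set Filter Topology

namespace Pool.Agent.L7h21.FB

open Pool.Agent.H241R3.FV (E Sph sig)
open Pool.Agent.L7h64.FB

/-- the product of three numbers in `[l, k]` with given sum -/
theorem prod_ge {l k a b c : ℝ} (hl : 0 < l) (hk : l ≤ k) (ha : l ≤ a) (ha' : a ≤ k)
    (hb : l ≤ b) (hb' : b ≤ k) (hc : l ≤ c) (hc' : c ≤ k) :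
    l * k * (a + b + c - l - k) ≤ a * b * c := by
  rcases eq_or_lt_of_le hk with h | h
  · subst h
    have h1 : a = l := le_antisymm ha' ha
    have h2 : b = l := le_antisymm hb' hb
    have h3 : c = l := le_antisymm hc' hc
    subst h1; subst h2; subst h3
    nlinarith
  · have h0 : 0 < k := hl.trans h
    have h1 : (k - l) * (a * b * c - l * k * (a + b + c - l - k)) =
        l * ((k - a) * (k - b) * (k - c)) + k * ((a - l) * (b - l) * (c - l)) := by ring
    have h2 : 0 ≤ (k - a) * (k - b) * (k - c) :=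
      mul_nonneg (mul_nonneg (by linarith) (by linarith)) (by linarith)
    have h3 : 0 ≤ (a - l) * (b - l) * (c - l) :=
      mul_nonneg (mul_nonneg (by linarith) (by linarith)) (by linarith)
    have h4 : 0 ≤ (k - l) * (a * b * c - l * k * (a + b + c - l - k)) := by
      rw [h1]; positivity
    have h5 := nonneg_of_mul_nonneg_right h4 (by linarith)
    linarith

theorem s_LA : S_LA := by
  intro L l k hl hk hL
  have hfr : Module.finrank ℝ (E 3) = 3 := by simp [E]
  set M : E 3 →ₗ[ℝ] E 3 := (L : E 3 →ₗ[ℝ] E 3) with hM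
  set A : E 3 →ₗ[ℝ] E 3 := ((ContinuousLinearMap.adjoint L : E 3 →L[ℝ] E 3) : E 3 →ₗ[ℝ] E 3)
    with hA
  have hAd : ∀ v w : E 3, (inner ℝ (A v) w : ℝ) = inner ℝ v (M w) := by
    intro v w
    exact ContinuousLinearMap.adjoint_inner_left L w v
  have hS : (M + A).IsSymmetric := by
    intro v w
    rw [LinearMap.add_apply, LinearMap.add_apply, inner_add_left, inner_add_right, hAd,
      real_inner_comm (A w) v, hAd, real_inner_comm (M v) w]
    ring
  set b := hS.eigenvectorBasis hfr with hb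
  set ev := hS.eigenvalues hfr with hev
  have hbe : ∀ i j, (inner ℝ (M (b i)) (b j) : ℝ) + inner ℝ (M (b j)) (b i) =
      if i = j then ev i else 0 := by
    intro i j
    have h1 : (M + A) (b i) = ev i • b i := hS.apply_eigenvectorBasis hfr i
    have h2 : (inner ℝ ((M + A) (b i)) (b j) : ℝ) = ev i * (inner ℝ (b i) (b j) : ℝ) := by
      rw [h1, real_inner_smul_left]
    rw [LinearMap.add_apply, inner_add_left, hAd, real_inner_comm (M (b j)) (b i),
      orthonormal_iff_ite.1 b.orthonormal i j] at h2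
    rw [h2]
    split <;> simp
  have hdiag : ∀ i, l ≤ (inner ℝ (M (b i)) (b i) : ℝ) ∧ (inner ℝ (M (b i)) (b i) : ℝ) ≤ k :=
    fun i => hL (b i) (b.orthonormal.1 i)
  have htr : (∑ i : Fin 3, (inner ℝ (L (EuclideanSpace.single i 1))
      (EuclideanSpace.single i 1) : ℝ)) = ∑ i, (inner ℝ (M (b i)) (b i) : ℝ) := by
    have h1 := LinearMap.trace_eq_sum_inner M (EuclideanSpace.basisFun (Fin 3) ℝ)
    have h2 := LinearMap.trace_eq_sum_inner M b
    rw [h1] at h2
    have h3 : ∀ i, (inner ℝ ((EuclideanSpace.basisFun (Fin 3) ℝ) i)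
        (M ((EuclideanSpace.basisFun (Fin 3) ℝ) i)) : ℝ) =
        inner ℝ (L (EuclideanSpace.single i 1)) (EuclideanSpace.single i 1) := by
      intro i
      rw [EuclideanSpace.basisFun_apply, real_inner_comm]
      rfl
    rw [Finset.sum_congr rfl (fun i _ => h3 i)] at h2
    rw [h2]
    exact Finset.sum_congr rfl (fun i _ => real_inner_comm _ _)
  have hdet : L.det = Matrix.det (Matrix.of fun i j : Fin 3 => (inner ℝ (b i) (M (b j)) : ℝ)) := by
    have h2 := LinearMap.det_toMatrix b.toBasis M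
    have h3 : L.det = LinearMap.det M := rfl
    rw [h3, ← h2]
    congr 1
    funext i j
    simp only [LinearMap.toMatrix_apply, OrthonormalBasis.coe_toBasis,
      OrthonormalBasis.coe_toBasis_repr_apply, OrthonormalBasis.repr_apply_apply, Matrix.of_apply]
  have hm : ∀ i j, (inner ℝ (b i) (M (b j)) : ℝ) = inner ℝ (M (b j)) (b i) :=
    fun i j => real_inner_comm _ _
  rw [htr, hdet, Matrix.det_fin_three, Fin.sum_univ_three]
  simp only [Matrix.of_apply, hm]
  have e01 := hbe 0 1
  have e02 := hbe 0 2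
  have e12 := hbe 1 2
  rw [if_neg (by decide)] at e01 e02 e12
  obtain ⟨d0, d0'⟩ := hdiag 0
  obtain ⟨d1, d1'⟩ := hdiag 1
  obtain ⟨d2, d2'⟩ := hdiag 2
  have hp := prod_ge hl hk d0 d0' d1 d1' d2 d2'
  rw [show (inner ℝ (M (b 1)) (b 0) : ℝ) = -(inner ℝ (M (b 0)) (b 1) : ℝ) by linarith,
    show (inner ℝ (M (b 2)) (b 0) : ℝ) = -(inner ℝ (M (b 0)) (b 2) : ℝ) by linarith,
    show (inner ℝ (M (b 2)) (b 1) : ℝ) = -(inner ℝ (M (b 1)) (b 2) : ℝ) by linarith]
  have q0 := mul_nonneg (hl.le.trans d0) (sq_nonneg (inner ℝ (M (b 1)) (b 2) : ℝ))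
  have q1 := mul_nonneg (hl.le.trans d1) (sq_nonneg (inner ℝ (M (b 0)) (b 2) : ℝ))
  have q2 := mul_nonneg (hl.le.trans d2) (sq_nonneg (inner ℝ (M (b 0)) (b 1) : ℝ))
  nlinarith [hp, q0, q1, q2]

end Pool.Agent.L7h21.FB
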